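import Pool.Agent.Q187.TP.Pattern

/-!
# Nonlinear three-point patterns in Cantor sets of Newhouse thickness greater than one

Q1 is answered in the affirmative: if `K` is a Cantor set of thickness greater than `1` and `f` is
`C¹` with `f 0 = 0`, `f' 0 > 0`, then `K` contains `{x - t, x, x + f t}` for some `x` and `t > 0`,
with `t` as small as we like.

The bridge of a gap ends at the nearest gap whose length is at least (relation `≤`; this is the
definition of Newhouse, Palis and Takens) or greater (relation `<`; the wording of the problem file)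
than the length of the given gap. The two definitions agree if no two gaps have the same length.
-/

set_option autoImplicit false

open Set Filter Topology

namespace Pool.Agent.Results.MP_4ff6b6_an.ThreePointPattern

/-- A Cantor set: a nonempty, compact, perfect, totally disconnected set of real numbers. -/
def IsCantorSet (K : Set ℝ) : Prop :=
  K.Nonempty ∧ IsCompact K ∧ Perfect K ∧ IsTotallyDisconnected K

/-- `(u, w)` is a bounded gap of the closed set `K`: a bounded component of the complement. -/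
def IsGap (K : Set ℝ) (u w : ℝ) : Prop := u < w ∧ u ∈ K ∧ w ∈ K ∧ Ioo u w ∩ K = ∅

/-- The right end of the bridge at the right endpoint `w` of the gap `(u, w)`: the left endpoint of
the nearest gap to the right of `w` whose length `l` satisfies `r (w - u) l`, or `max K` if there is
no such gap. -/
noncomputable def bridgeRight (r : ℝ → ℝ → Prop) (K : Set ℝ) (u w : ℝ) : ℝ :=
  sInf ({v | ∃ z, IsGap K v z ∧ w ≤ v ∧ r (w - u) (z - v)} ∪ {sSup K})

/-- The left end of the bridge at the left endpoint `u` of the gap `(u, w)`: the right endpoint of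
the nearest gap to the left of `u` whose length `l` satisfies `r (w - u) l`, or `min K` if there is
no such gap. -/
noncomputable def bridgeLeft (r : ℝ → ℝ → Prop) (K : Set ℝ) (u w : ℝ) : ℝ :=
  sSup ({z | ∃ v, IsGap K v z ∧ z ≤ u ∧ r (w - u) (z - v)} ∪ {sInf K})

/-- The Newhouse thickness: the infimum, over the endpoints of all bounded gaps, of the length of
the bridge divided by the length of the gap. -/
noncomputable def thickness (r : ℝ → ℝ → Prop) (K : Set ℝ) : EReal :=
  ⨅ (u : ℝ) (w : ℝ) (_ : IsGap K u w),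
    min (((bridgeRight r K u w - w) / (w - u) : ℝ) : EReal)
      (((u - bridgeLeft r K u w) / (w - u) : ℝ) : EReal)

/-- No two different bounded gaps of `K` have the same length. -/
def DistinctGaps (K : Set ℝ) : Prop :=
  ∀ u w u' w', IsGap K u w → IsGap K u' w' → w - u = w' - u' → u = u'

open Pool.Agent.Q187.TP in
lemma isGap_iff {K : Set ℝ} {u w : ℝ} : IsGap K u w ↔ Gap K u w := by
  constructor
  · rintro ⟨h1, h2, h3, h4⟩
    refine ⟨h2, h3, h1, fun x hx => ?_⟩
    by_contra hne
    push Not at hne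
    have : x ∈ Ioo u w ∩ K := ⟨hne, hx⟩
    rw [h4] at this
    exact this
  · rintro ⟨h1, h2, h3, h4⟩
    refine ⟨h3, h1, h2, ?_⟩
    ext x
    simp only [mem_inter_iff, mem_Ioo, mem_empty_iff_false, iff_false]
    rintro ⟨⟨h5, h6⟩, h7⟩
    rcases h4 x h7 with h | h <;> linarith

open Pool.Agent.Q187.TP in
lemma th_of_thickness {K : Set ℝ} (hK : IsCompact K) (hne : K.Nonempty)
    (h : 1 < thickness (· ≤ ·) K) : ∃ c : ℝ, 1 < c ∧ Th c K := by
  obtain ⟨c, hc1, hc2⟩ := EReal.lt_iff_exists_real_btwn.mp h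
  have hc1' : 1 < c := by exact_mod_cast hc1
  have key : ∀ u w, Gap K u w → c * (w - u) ≤ bridgeRight (· ≤ ·) K u w - w ∧
      c * (w - u) ≤ u - bridgeLeft (· ≤ ·) K u w := by
    intro u w hG
    have h1 : thickness (· ≤ ·) K ≤ min (((bridgeRight (· ≤ ·) K u w - w) / (w - u) : ℝ) : EReal)
        (((u - bridgeLeft (· ≤ ·) K u w) / (w - u) : ℝ) : EReal) :=
      iInf_le_of_le u (iInf_le_of_le w (iInf_le_of_le (isGap_iff.mpr hG) le_rfl))
    have h2 := hc2.le.trans h1
    rw [le_min_iff] at h2
    have hwu : 0 < w - u := by linarith [hG.2.2.1]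
    have h3 : c ≤ (bridgeRight (· ≤ ·) K u w - w) / (w - u) := by exact_mod_cast h2.1
    have h4 : c ≤ (u - bridgeLeft (· ≤ ·) K u w) / (w - u) := by exact_mod_cast h2.2
    exact ⟨(le_div_iff₀ hwu).mp h3, (le_div_iff₀ hwu).mp h4⟩
  have hSup := hK.sSup_mem hne
  have hInf := hK.sInf_mem hne
  have hlS : ∀ x ∈ K, x ≤ sSup K := fun x hx => le_csSup hK.bddAbove hx
  have hlI : ∀ x ∈ K, sInf K ≤ x := fun x hx => csInf_le hK.bddBelow hx
  have bR : ∀ u w, Gap K u w → BddBelow
      ({v | ∃ z, IsGap K v z ∧ w ≤ v ∧ w - u ≤ z - v} ∪ {sSup K}) := by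
    intro u w hG
    refine ⟨w, ?_⟩
    rintro x (⟨z, -, h1, -⟩ | h1)
    · exact h1
    · rw [mem_singleton_iff] at h1
      rw [h1]; exact hlS w hG.2.1
  have bL : ∀ u w, Gap K u w → BddAbove
      ({z | ∃ v, IsGap K v z ∧ z ≤ u ∧ w - u ≤ z - v} ∪ {sInf K}) := by
    intro u w hG
    refine ⟨u, ?_⟩
    rintro x (⟨z, -, h1, -⟩ | h1)
    · exact h1
    · rw [mem_singleton_iff] at h1
      rw [h1]; exact hlI u hG.1
  refine ⟨c, hc1', ?_, ?_, ?_⟩
  · intro u w u' w' h1 h2 h3
    rcases le_total (w - u) (w' - u') with h4 | h4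
    · rw [min_eq_left h4]
      have h5 : bridgeRight (· ≤ ·) K u w ≤ u' :=
        csInf_le (bR u w h1) (Or.inl ⟨w', isGap_iff.mpr h2, h3, h4⟩)
      linarith [(key u w h1).1]
    · rw [min_eq_right h4]
      have h5 : w ≤ bridgeLeft (· ≤ ·) K u' w' :=
        le_csSup (bL u' w' h2) (Or.inl ⟨u, isGap_iff.mpr h1, h3, h4⟩)
      linarith [(key u' w' h2).2]
  · intro u w h1
    refine ⟨sSup K, hSup, ?_⟩
    have h5 : bridgeRight (· ≤ ·) K u w ≤ sSup K := csInf_le (bR u w h1) (Or.inr rfl)
    linarith [(key u w h1).1]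
  · intro u w h1
    refine ⟨sInf K, hInf, ?_⟩
    have h5 : sInf K ≤ bridgeLeft (· ≤ ·) K u w := le_csSup (bL u w h1) (Or.inr rfl)
    linarith [(key u w h1).2]

lemma thickness_eq {K : Set ℝ} (h : DistinctGaps K) :
    thickness (· < ·) K = thickness (· ≤ ·) K := by
  have e1 : ∀ u w, IsGap K u w → bridgeRight (· < ·) K u w = bridgeRight (· ≤ ·) K u w := by
    intro u w hG
    unfold bridgeRight
    congr 2
    ext v
    constructor
    · rintro ⟨z, h1, h2, h3⟩
      exact ⟨z, h1, h2, h3.le⟩
    · rintro ⟨z, h1, h2, h3⟩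
      refine ⟨z, h1, h2, lt_of_le_of_ne h3 fun h4 => ?_⟩
      have := h _ _ _ _ hG h1 h4
      linarith [hG.1]
  have e2 : ∀ u w, IsGap K u w → bridgeLeft (· < ·) K u w = bridgeLeft (· ≤ ·) K u w := by
    intro u w hG
    unfold bridgeLeft
    congr 2
    ext z
    constructor
    · rintro ⟨v, h1, h2, h3⟩
      exact ⟨v, h1, h2, h3.le⟩
    · rintro ⟨v, h1, h2, h3⟩
      refine ⟨v, h1, h2, lt_of_le_of_ne h3 fun h4 => ?_⟩
      have := h _ _ _ _ hG h1 h4
      linarith [h1.1]
  unfold thickness
  refine iInf_congr fun u => iInf_congr fun w => iInf_congr fun hG => ?_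
  rw [e1 u w hG, e2 u w hG]

/-- Let `K` be a Cantor set whose Newhouse thickness (bridges end at gaps of at least the same
length) is greater than `1`, or which has no two gaps of the same length and whose thickness in the
wording of the problem file (bridges end at strictly longer gaps) is greater than `1`. Let `f` be
`C¹` with `f 0 = 0` and `f' 0 > 0`. Then for every `ε > 0` there are `x` and `0 < t < ε` with
`x - t, x, x + f t ∈ K`. -/
theorem result (K : Set ℝ) (hK : IsCantorSet K)
    (hth : 1 < thickness (· ≤ ·) K ∨ (DistinctGaps K ∧ 1 < thickness (· < ·) K))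
    (f : ℝ → ℝ) (hf : ContDiff ℝ 1 f) (hf0 : f 0 = 0) (hf1 : 0 < deriv f 0) (ε : ℝ)
    (hε : 0 < ε) : ∃ x t : ℝ, 0 < t ∧ t < ε ∧ {x - t, x, x + f t} ⊆ K := by
  obtain ⟨hne, hKc, hperf, htd⟩ := hK
  have hth' : 1 < thickness (· ≤ ·) K := by
    rcases hth with h | ⟨h1, h2⟩
    · exact h
    · rwa [thickness_eq h1] at h2
  obtain ⟨c, hc, t⟩ := th_of_thickness hKc hne hth'
  have hs : HasStrictDerivAt f (deriv f 0) 0 := hf.contDiffAt.hasStrictDerivAt one_ne_zero
  obtain ⟨x, s, h1, h2, h3, h4, h5⟩ := Pool.Agent.Q187.TP.pattern hKc hne hc t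
    (by
      intro x hx η hη
      obtain ⟨y, hy, hyx⟩ := accPt_iff_nhds.mp (hperf.acc x hx) (Metric.ball x η)
        (Metric.ball_mem_nhds x hη)
      exact ⟨y, hy.2, hyx, by simpa [Real.dist_eq] using hy.1⟩)
    (by
      intro x y hxy
      by_contra hne'
      push Not at hne'
      have hsub : Icc ((2 * x + y) / 3) ((x + 2 * y) / 3) ⊆ K := fun z hz =>
        hne' z (by linarith [hz.1]) (by linarith [hz.2])
      have hsing := htd _ hsub isPreconnected_Icc
      have := hsing (left_mem_Icc.mpr (by linarith : (2 * x + y) / 3 ≤ (x + 2 * y) / 3))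
        (right_mem_Icc.mpr (by linarith : (2 * x + y) / 3 ≤ (x + 2 * y) / 3))
      linarith)
    hf1 hf0 hs ε hε
  refine ⟨x, s, h1, h2, ?_⟩
  rintro y (rfl | rfl | rfl)
  · exact h3
  · exact h4
  · exact h5

end Pool.Agent.Results.MP_4ff6b6_an.ThreePointPattern
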